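import Pool.Agent.H.MP_2c76b2_co.D

set_option autoImplicit false
open Finset SimpleGraph Function
open scoped Classical

namespace Pool.Agent.Results.MP_2c76b2_co.No

open Pool.Agent.H.MP_2c76b2_co

/-- `Ex n H F`: the `F`-free graphs on `n` vertices with the most subgraphs isomorphic to `H`. -/
def Ex (n : ℕ) {A B : Type} (H : SimpleGraph A) (F : SimpleGraph B) : Set (SimpleGraph (Fin n)) :=
  {G | F.Free G ∧ ∀ G' : SimpleGraph (Fin n), F.Free G' → G'.copyCount H ≤ G.copyCount H}

/-- `ExE n F`: the `F`-free graphs on `n` vertices with the most edges. -/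
def ExE (n : ℕ) {B : Type} (F : SimpleGraph B) : Set (SimpleGraph (Fin n)) :=
  {G | F.Free G ∧ ∀ G' : SimpleGraph (Fin n), F.Free G' → G'.edgeSet.ncard ≤ G.edgeSet.ncard}

lemma edges {n : ℕ} (G : SimpleGraph (Fin n)) : G.edgeSet.ncard = #G.edgeFinset := by
  rw [← coe_edgeFinset, Set.ncard_coe_finset]

lemma sdg {n : ℕ} (G : SimpleGraph (Fin n)) : ∑ v, (dg G v : ℝ) = 2 * #G.edgeFinset := by
  simp only [← dg_eq]; exact_mod_cast G.sum_degrees_eq_twice_card_edges

theorem result : ∀ r : ℕ, ∃ (B : Type) (_ : Fintype B) (F : SimpleGraph B),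
    (r : ℕ∞) < F.chromaticNumber ∧ ∀ n₀ : ℕ, ∃ n ≥ n₀,
      Ex n (pathGraph 3) F ∩ ExE n F = ∅ := fun s => by
  obtain ⟨h, hh⟩ : ∃ h, h = 8 * (s + 2) := ⟨_, rfl⟩
  refine ⟨W s (2 * h + 1), inferInstance, F s _, lt_of_lt_of_le (by exact_mod_cast s.lt_succ_self)
    (le_chromaticNumber_of_pairwise_adj (n := s + 1) (by simp) (fun a : Fin (s + 2) => .inr (a, 0))
      fun a b n => ⟨n, fun _ _ => rfl⟩), fun n₀ => ?_⟩
  obtain ⟨ε, e0, H⟩ := st3 s
  rw [← hh] at H
  have p : (0 : ℝ) < 1 / (s + 2) := by positivity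
  have := incr (fun n => extremalNumber n (F s (2 * h + 1))) (α := 1 - 1 / (s + 2) - ε) e0
    (by linarith) (s + 1) ((Filter.eventually_gt_atTop (2 * h)).mono fun m hm => by
      obtain ⟨G, f, e⟩ := real (h := h) (n := (s + 1 + 1) * m) (fun _ => m) 0
        (by rw [sum_const, card_fin, smul_eq_mul]) hm
      have a := card_edgeFinset_le_extremalNumber f
      have b := e id
      have c : ∑ _i : Fin (s + 2), (m : ℝ) * (((s + 1 + 1) * m : ℕ) - m) ≤ _ :=
        (sum_le_sum fun i _ => mul_le_mul_of_nonneg_left (le_add_of_nonneg_right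
          (by split_ifs <;> positivity)) (by positivity)).trans b.ge
      simp only [id, sdg, sum_const, card_fin, nsmul_eq_mul, Fintype.card_fin] at a c
      refine le_trans (le_of_eq ?_) (c.trans (by gcongr))
      push_cast
      field_simp
      ring)
  obtain ⟨n, h1, h2, h3⟩ := (this.and_eventually (((Filter.tendsto_add_atTop_nat 1).eventually H).and
    (Filter.eventually_ge_atTop n₀))).exists
  refine ⟨n + 1, by omega, Set.eq_empty_of_forall_notMem fun G ⟨⟨f, m2⟩, _, m1⟩ => ?_⟩
  refine h2 G f (fun v => h1.trans ?_) (fun G' f' => ?_) fun G' f' => ?_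
  · have a := (extremalNumber_le_iff (V := Fin (n + 1)) _ _).2 fun G' _ f' => by
      rw [← Set.ncard_coe_finset, coe_edgeFinset]
      exact (m1 G' f').trans_eq (edges G)
    have b := card_edgeFinset_deleteIncidenceSet_le_extremalNumber f v
    rw [card_edgeFinset_deleteIncidenceSet, dg_eq] at b
    simp only [Fintype.card_fin, Nat.add_sub_cancel] at a b
    rw [sub_le_iff_le_add]
    exact_mod_cast a.trans (by omega)
  · simp only [id, sdg, ← edges]
    exact_mod_cast Nat.mul_le_mul_left 2 (m1 G' f')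
  · rw [← cherry, ← cherry]
    exact_mod_cast Nat.mul_le_mul_left 2 (m2 G' f')

end Pool.Agent.Results.MP_2c76b2_co.No
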